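import Mathlib

set_option autoImplicit false

namespace Pool.Agent.Results.MP_ae2185_co.WadeFalse

def edges : List (Fin 14 × Fin 14) :=
  [(0, 2), (0, 3), (1, 4), (1, 5), (2, 7), (2, 12), (3, 10), (3, 13), (4, 8), (4, 11), (5, 6), (5, 9), (6, 9), (6, 11), (6, 13), (7, 9), (7, 12), (8, 9), (8, 10), (8, 11), (10, 13), (11, 12)]

def G : SimpleGraph (Fin 14) where
  Adj a b := (a, b) ∈ edges ∨ (b, a) ∈ edges
  symm := ⟨fun _ _ h => h.symm⟩
  loopless := ⟨by decide⟩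

instance : DecidableRel G.Adj := fun a b => inferInstanceAs (Decidable ((a, b) ∈ edges ∨ (b, a) ∈ edges))

def wit : List ((Fin 14 × Fin 14) × Finset (Fin 14)) :=
  [((0, 2), {0, 1, 2, 9, 10, 11}),
   ((0, 3), {0, 1, 3, 6, 7, 8}),
   ((1, 4), {0, 1, 4, 6, 7, 10}),
   ((1, 5), {0, 1, 5, 7, 8, 13}),
   ((2, 7), {1, 2, 3, 6, 7, 8}),
   ((2, 12), {1, 2, 3, 6, 8, 12}),
   ((3, 10), {1, 2, 3, 9, 10, 11}),
   ((3, 13), {1, 2, 3, 9, 11, 13}),
   ((4, 8), {0, 4, 5, 7, 8, 13}),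
   ((4, 11), {0, 4, 5, 7, 10, 11}),
   ((5, 6), {0, 4, 5, 6, 7, 10}),
   ((5, 9), {0, 4, 5, 9, 10, 12}),
   ((6, 9), {0, 1, 6, 9, 10, 12}),
   ((6, 11), {0, 1, 6, 7, 10, 11}),
   ((6, 13), {0, 1, 6, 7, 8, 13}),
   ((7, 9), {0, 1, 7, 9, 10, 11}),
   ((7, 12), {0, 1, 6, 7, 8, 12}),
   ((8, 9), {0, 1, 8, 9, 12, 13}),
   ((8, 10), {0, 1, 6, 7, 8, 10}),
   ((8, 11), {0, 1, 7, 8, 11, 13}),
   ((10, 13), {0, 1, 7, 10, 11, 13}),
   ((11, 12), {0, 1, 9, 10, 11, 12})]

lemma key : ∀ b0 b1 b2 b3 b4 b5 b6 b7 b8 b9 b10 b11 b12 b13 : Bool, (!(b0 && b2) && !(b0 && b3) && !(b1 && b4) && !(b1 && b5) && !(b2 && b7) && !(b2 && b12) && !(b3 && b10) && !(b3 && b13) && !(b4 && b8) && !(b4 && b11) && !(b5 && b6) && !(b5 && b9) && !(b6 && b9) && !(b6 && b11) && !(b6 && b13) && !(b7 && b9) && !(b7 && b12) && !(b8 && b9) && !(b8 && b10) && !(b8 && b11) && !(b10 && b13) && !(b11 && b12)) = true →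
    b0.toNat + b1.toNat + b2.toNat + b3.toNat + b4.toNat + b5.toNat + b6.toNat + b7.toNat + b8.toNat + b9.toNat + b10.toNat + b11.toNat + b12.toNat + b13.toNat ≤ 5 ∧ (b0 = false → b1 = false → b0.toNat + b1.toNat + b2.toNat + b3.toNat + b4.toNat + b5.toNat + b6.toNat + b7.toNat + b8.toNat + b9.toNat + b10.toNat + b11.toNat + b12.toNat + b13.toNat ≤ 4) := by
  decide +kernel

lemma bound (s : Finset (Fin 14)) (h : G.IsIndepSet s) :
    s.card ≤ 5 ∧ (0 ∉ s → 1 ∉ s → s.card ≤ 4) := by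
  have he : ∀ a b : Fin 14, G.Adj a b → (!(decide (a ∈ s) && decide (b ∈ s))) = true := by
    intro a b hab
    by_cases ha : a ∈ s
    · by_cases hb : b ∈ s
      · exact absurd hab (h ha hb hab.ne)
      · simp [hb]
    · simp [ha]
  have hc : s.card = ∑ i : Fin 14, (decide (i ∈ s)).toNat := by
    rw [Finset.card_eq_sum_ones, ← Finset.sum_ite_mem_eq]
    exact Finset.sum_congr rfl fun i _ => by by_cases hi : i ∈ s <;> simp [hi]
  have e0 := he 0 2 (by decide)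
  have e1 := he 0 3 (by decide)
  have e2 := he 1 4 (by decide)
  have e3 := he 1 5 (by decide)
  have e4 := he 2 7 (by decide)
  have e5 := he 2 12 (by decide)
  have e6 := he 3 10 (by decide)
  have e7 := he 3 13 (by decide)
  have e8 := he 4 8 (by decide)
  have e9 := he 4 11 (by decide)
  have e10 := he 5 6 (by decide)
  have e11 := he 5 9 (by decide)
  have e12 := he 6 9 (by decide)
  have e13 := he 6 11 (by decide)
  have e14 := he 6 13 (by decide)
  have e15 := he 7 9 (by decide)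
  have e16 := he 7 12 (by decide)
  have e17 := he 8 9 (by decide)
  have e18 := he 8 10 (by decide)
  have e19 := he 8 11 (by decide)
  have e20 := he 10 13 (by decide)
  have e21 := he 11 12 (by decide)
  have := key (decide (0 ∈ s)) (decide (1 ∈ s)) (decide (2 ∈ s)) (decide (3 ∈ s)) (decide (4 ∈ s)) (decide (5 ∈ s)) (decide (6 ∈ s)) (decide (7 ∈ s)) (decide (8 ∈ s)) (decide (9 ∈ s)) (decide (10 ∈ s)) (decide (11 ∈ s)) (decide (12 ∈ s)) (decide (13 ∈ s))
    (by simp only [e0, e1, e2, e3, e4, e5, e6, e7, e8, e9, e10, e11, e12, e13, e14, e15, e16, e17, e18, e19, e20, e21]; rfl)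
  rw [hc]
  simp only [Fin.sum_univ_succ, Fin.sum_univ_zero] 
  simp only [decide_eq_false_iff_not] at this
  refine ⟨le_trans (le_of_eq ?_) this.1, fun h0 h1 => le_trans (le_of_eq ?_) (this.2 h0 h1)⟩ <;>
    simp only [← add_assoc, add_zero] <;> rfl

lemma alpha : G.indepNum = 5 := by
  apply le_antisymm
  · obtain ⟨s, hs⟩ := G.exists_isNIndepSet_indepNum
    rw [← hs.card_eq]; exact (bound s hs.isIndepSet).1
  · have h : G.IsIndepSet (({0, 1, 9, 10, 11} : Finset (Fin 14)) : Set (Fin 14)) := by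
      rw [SimpleGraph.isIndepSet_iff]; intro a ha b hb _
      revert a b; simp only [Finset.mem_coe]; decide
    exact h.card_le_indepNum

lemma witOK : ∀ a b : Fin 14, G.Adj a b → ∃ p ∈ wit, p.2.card = 6 ∧
    ∀ u ∈ p.2, ∀ v ∈ p.2, G.Adj u v → s(u, v) = s(a, b) := by
  decide +kernel

theorem result : ∃ (n : ℕ) (G : SimpleGraph (Fin n)) (x y : Fin n),
    (∀ e ∈ G.edgeSet, G.indepNum < (G.deleteEdges {e}).indepNum) ∧
    (∀ v, ∃ w, G.Adj v w) ∧
    2 ≤ (G.neighborSet x).ncard ∧ 2 ≤ (G.neighborSet y).ncard ∧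
    ∀ s : Finset (Fin n), G.IsNIndepSet G.indepNum s → x ∈ s ∨ y ∈ s := by
  refine ⟨14, G, 0, 1, ?_, by decide, ?_, ?_, ?_⟩
  · intro e he
    induction e using Sym2.ind with
    | _ a b =>
      obtain ⟨p, -, hp, hq⟩ := witOK a b he
      have h : (G.deleteEdges {s(a, b)}).IsIndepSet (p.2 : Set (Fin 14)) := by
        intro u hu v hv _ huv
        rw [SimpleGraph.deleteEdges_adj] at huv
        exact huv.2 (hq u hu v hv huv.1)
      have := h.card_le_indepNum
      rw [alpha]; omega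
  · rw [← SimpleGraph.coe_neighborFinset, Set.ncard_coe_finset]; decide
  · rw [← SimpleGraph.coe_neighborFinset, Set.ncard_coe_finset]; decide
  · intro s hs
    by_contra h
    push Not at h
    have h1 := (bound s hs.isIndepSet).2 h.1 h.2
    have h2 := hs.card_eq
    rw [alpha] at h2; omega

end Pool.Agent.Results.MP_ae2185_co.WadeFalse
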